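import Pool.Agent.V1180.LSh

set_option autoImplicit false

/-!
# The light-segment set of an integrable source can have positive `H^{m-1}` measure

Disproof of Q1: `m = 4`, `Ω` a ball, `φ = 0` and an integrable source.
-/

namespace Pool.Agent.Results.MP_2eaabb_an.LightSegmentsOfPositiveMeasure

open MeasureTheory Set Filter Topology

/-- `ℝ^m` with the Euclidean norm -/
abbrev E (m : ℕ) : Type := EuclideanSpace ℝ (Fin m)

variable {m : ℕ}

/-- `p 0, …, p n` are the successive vertices of a piecewise affine path from `x` to `y`, all of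
whose points, except perhaps the two end points, lie in `Ω`. -/
def IsPath (Ω : Set (E m)) (x y : E m) (n : ℕ) (p : ℕ → E m) : Prop :=
  0 < n ∧ p 0 = x ∧ p n = y ∧ (∀ i < n, openSegment ℝ (p i) (p (i + 1)) ⊆ Ω) ∧ ∀ i, 0 < i → i < n → p i ∈ Ω

/-- the distance `d(x, y)`: the infimum of the lengths of those paths (`∞` if there is none) -/
noncomputable def dbar (Ω : Set (E m)) (x y : E m) : ENNReal :=
  ⨅ (n : ℕ) (p : ℕ → E m) (_ : IsPath Ω x y n p), ENNReal.ofReal (∑ i ∈ Finset.range n, ‖p (i + 1) - p i‖)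

/-- the class `S(∂Ω)` of boundary data -/
def BdryData (Ω : Set (E m)) (φ : E m → ℝ) : Prop :=
  ContinuousOn φ (frontier Ω) ∧
    ∀ x ∈ frontier Ω, ∀ y ∈ frontier Ω, x ≠ y → ENNReal.ofReal |φ x - φ y| < dbar Ω x y

/-- the class `Y_φ`: bounded, with `|Dv| ≤ 1` (that is, 1-Lipschitz on every ball contained in `Ω`),
with boundary values `φ` along straight segments -/
structure Adm (Ω : Set (E m)) (φ : E m → ℝ) (v : E m → ℝ) : Prop where
  bdd : ∃ M, ∀ x ∈ Ω, |v x| ≤ M
  lip : ∀ x r, Metric.ball x r ⊆ Ω → LipschitzOnWith 1 v (Metric.ball x r)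
  bdry : ∀ x ∈ frontier Ω, ∀ w : E m, (∀ t ∈ Ioo (0:ℝ) 1, x + t • w ∈ Ω) →
    Tendsto (fun t : ℝ => v (x + t • w)) (𝓝[>] 0) (𝓝 (φ x))

/-- the action of `v` for the source `f dx` -/
noncomputable def action (Ω : Set (E m)) (f : E m → ℝ) (v : E m → ℝ) : ℝ :=
  (∫ x in Ω, (1 - √(1 - ‖fderiv ℝ v x‖ ^ 2))) - ∫ x in Ω, f x * v x

/-- `u` minimises the action on `Y_φ` -/
def IsMinimiser (Ω : Set (E m)) (φ f u : E m → ℝ) : Prop :=
  Adm Ω φ u ∧ ∀ v, Adm Ω φ v → action Ω f u ≤ action Ω f v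

/-- the light-segment set of `u`: the closure of the union of its light segments -/
def lightSet (Ω : Set (E m)) (u : E m → ℝ) : Set (E m) :=
  closure {z | ∃ x y, x ≠ y ∧ segment ℝ x y ⊆ Ω ∧ |u x - u y| = ‖x - y‖ ∧ z ∈ segment ℝ x y}

open Pool.Agent.V1180.LS in
/-- **Q1 is false.**  For `m = 4` there are a ball `Ω`, an integrable source `f` and a minimiser `u`
(with zero boundary data) whose light-segment set has positive `H^{m-1}` measure. -/
theorem result : ∃ (m : ℕ) (Ω : Set (E m)) (φ f u : E m → ℝ),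
    2 ≤ m ∧ IsOpen Ω ∧ IsConnected Ω ∧ Bornology.IsBounded Ω ∧ BdryData Ω φ ∧ IntegrableOn f Ω ∧
    IsMinimiser Ω φ f u ∧ 1 ≤ Measure.hausdorffMeasure ((m:ℝ) - 1) (lightSet Ω u) := by
  obtain ⟨U, R₀, hB⟩ := exists_block
  have hC := conf hB.one_le
  have hne : (Metric.ball (0 : E 4) 10).Nonempty := ⟨0, by simp⟩
  refine ⟨4, Metric.ball (0 : E 4) 10, fun _ => 0, ff U yy (rr R₀), uu U yy (rr R₀), by norm_num, Metric.isOpen_ball,
    ⟨hne, (convex_ball _ _).isPreconnected⟩, Metric.isBounded_ball, ?_, (ff_int hB hC).integrableOn, ⟨?_, ?_⟩, ?_⟩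
  · refine ⟨continuousOn_const, fun x _ y _ hxy => ?_⟩
    rw [sub_self, abs_zero, ENNReal.ofReal_zero]
    have hpos : 0 < ENNReal.ofReal ‖y - x‖ := by
      rw [ENNReal.ofReal_pos, norm_pos_iff, sub_ne_zero]
      exact hxy.symm
    refine hpos.trans_le ?_
    unfold dbar
    refine le_iInf fun n => le_iInf fun p => le_iInf fun hp => ENNReal.ofReal_le_ofReal ?_
    obtain ⟨_, h0, hn, _⟩ := hp
    rw [← h0, ← hn, ← Finset.sum_range_sub p n]
    exact norm_sum_le _ _
  · obtain ⟨M, hM⟩ := uu_bdd hB hC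
    refine ⟨⟨M, fun x _ => hM x⟩, fun x r _ => (uu_lip hB hC).lipschitzOnWith, fun x hx w _ => ?_⟩
    have hx0 : uu U yy (rr R₀) x = 0 := by
      have hout : ∀ k, x ∉ Metric.ball (yy k) (rr R₀ k * R₀) := by
        intro k hk
        have := hC.sub k hk
        rw [Metric.isOpen_ball.frontier_eq] at hx
        exact hx.2 this
      rw [uu_eq hB hC (j := 0) (fun k _ => hout k)]
      exact Us_zero hB (hC.pos 0) (hout 0)
    have hc : Continuous (fun t : ℝ => uu U yy (rr R₀) (x + t • w)) :=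
      (uu_lip hB hC).continuous.comp (by fun_prop)
    have := hc.tendsto 0
    rw [zero_smul, add_zero, hx0] at this
    exact this.mono_left nhdsWithin_le_nhds
  · intro v hv
    obtain ⟨M, hM⟩ := hv.bdd
    have hloc : ∀ x ∈ Metric.ball (0 : E 4) 10, ∃ r > 0, Metric.ball x r ⊆ Metric.ball (0 : E 4) 10 :=
      fun x hx => Metric.isOpen_iff.1 Metric.isOpen_ball x hx
    have hComp : Comp R₀ (Metric.ball (0 : E 4) 10) yy (rr R₀) v M := by
      refine ⟨fun j => hv.lip _ _ (hC.sub j), fun x hx => ?_, fun x hx => ?_, hM⟩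
      · obtain ⟨r, hr, hrs⟩ := hloc x hx
        have := norm_fderiv_le_of_lipschitzOn ℝ (Metric.ball_mem_nhds x hr) (hv.lip x r hrs)
        simpa using this
      · obtain ⟨r, hr, hrs⟩ := hloc x hx
        exact ((hv.lip x r hrs).continuousOn.continuousAt (Metric.ball_mem_nhds x hr)).continuousWithinAt
    exact minimal measurableSet_ball (measure_ball_lt_top).ne hB hC hComp
  · have h3 : ((4:ℕ):ℝ) - 1 = 3 := by norm_num
    rw [h3]
    refine hausdorff_ge isClosed_closure fun j => subset_closure ?_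
    have hr := hC.pos j
    have hR := hB.one_le
    have hnear : ∀ t : ℝ, |t| ≤ 1 → ‖(rr R₀ j * t) • ev 3‖ ≤ rr R₀ j := by
      intro t ht
      rw [norm_smul, ev_norm, mul_one, Real.norm_eq_abs, abs_mul, abs_of_pos hr]
      exact mul_le_of_le_one_right hr.le ht
    have hval : ∀ t : ℝ, |t| ≤ 1 → uu U yy (rr R₀) (yy j + (rr R₀ j * t) • ev 3) = rr R₀ j * t := by
      intro t ht
      have h1 := hnear t ht
      have hout : ∀ k, k ≠ j → yy j + (rr R₀ j * t) • ev 3 ∉ Metric.ball (yy k) (rr R₀ k * R₀) := by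
        intro k hk hmem
        rw [mem_ball_iff_norm] at hmem
        have h2 := hC.disj j k hk.symm
        have h4 : ‖yy j - yy k‖ ≤ ‖yy j + (rr R₀ j * t) • ev 3 - yy k‖ + ‖(rr R₀ j * t) • ev 3‖ := by
          have : yy j - yy k = (yy j + (rr R₀ j * t) • ev 3 - yy k) - (rr R₀ j * t) • ev 3 := by abel
          conv_lhs => rw [this]
          exact norm_sub_le _ _
        nlinarith
      rw [uu_eq hB hC hout]
      unfold Us
      rw [add_sub_cancel_left, smul_smul, ← mul_assoc, inv_mul_cancel₀ hr.ne', one_mul, hB.seg t ht]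
    have hin : ∀ t : ℝ, |t| ≤ 1 → yy j + (rr R₀ j * t) • ev 3 ∈ Metric.ball (0 : E 4) 10 := by
      intro t ht
      rw [mem_ball_zero_iff]
      have h1 := hnear t ht
      have h2 := yy_norm j
      have h4 := norm_add_le (yy j) ((rr R₀ j * t) • ev 3)
      have h5 : rr R₀ j ≤ 1 := (hC.le j).trans (pow_le_one₀ (by norm_num) (by norm_num))
      linarith
    have a1 : |(-1:ℝ)| ≤ 1 := by norm_num
    have a2 : |(1:ℝ)| ≤ 1 := by norm_num
    have hdiff : (yy j + (rr R₀ j * (-1)) • ev 3) - (yy j + (rr R₀ j * 1) • ev 3) = (-(2 * rr R₀ j)) • ev 3 := by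
      module
    have hnorm : ‖(yy j + (rr R₀ j * (-1)) • ev 3) - (yy j + (rr R₀ j * 1) • ev 3)‖ = 2 * rr R₀ j := by
      rw [hdiff, norm_smul, ev_norm, mul_one, Real.norm_eq_abs, abs_neg, abs_of_pos (by positivity)]
    refine ⟨yy j + (rr R₀ j * (-1)) • ev 3, yy j + (rr R₀ j * 1) • ev 3, ?_, ?_, ?_, ?_⟩
    · rw [← sub_ne_zero, ← norm_pos_iff, hnorm]
      positivity
    · exact (convex_ball _ _).segment_subset (hin _ a1) (hin _ a2)
    · rw [hval _ a1, hval _ a2, hnorm, show rr R₀ j * (-1) - rr R₀ j * 1 = -(2 * rr R₀ j) by ring, abs_neg, abs_of_pos (by positivity)]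
    · refine ⟨1/2, 1/2, by norm_num, by norm_num, by norm_num, ?_⟩
      module

end Pool.Agent.Results.MP_2eaabb_an.LightSegmentsOfPositiveMeasure
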